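import Pool.Agent.Helper63.Sel.Play

/-!
The families in `D_Ω` are the families which are dense for the preorder of finite lists of
nonempty open sets.
-/

namespace Pool.Agent.Helper63.Sel

open Set

universe u

/-- Finite lists of nonempty open sets. -/
structure Cond (X : Type u) [TopologicalSpace X] where
  l : List (Set X)
  isOpen : ∀ F ∈ l, IsOpen F ∧ F.Nonempty

theorem forall₂_left {α β : Type u} {R : α → β → Prop} {l₁ : List α} {l₂ : List β}
    (h : List.Forall₂ R l₁ l₂) : ∀ a ∈ l₁, ∃ b ∈ l₂, R a b := by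
  induction h with
  | nil => intro a ha; simp at ha
  | cons hab _ ih =>
    intro a ha
    rcases List.mem_cons.mp ha with rfl | ha
    · exact ⟨_, List.mem_cons_self, hab⟩
    · obtain ⟨b, hb, hR⟩ := ih a ha
      exact ⟨b, List.mem_cons_of_mem _ hb, hR⟩

theorem forall₂_right {α β : Type u} {R : α → β → Prop} {l₁ : List α} {l₂ : List β}
    (h : List.Forall₂ R l₁ l₂) : ∀ b ∈ l₂, ∃ a ∈ l₁, R a b := by
  induction h with
  | nil => intro a ha; simp at ha
  | cons hab _ ih =>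
    intro b hb
    rcases List.mem_cons.mp hb with rfl | hb
    · exact ⟨_, List.mem_cons_self, hab⟩
    · obtain ⟨a, ha, hR⟩ := ih b hb
      exact ⟨a, List.mem_cons_of_mem _ ha, hR⟩

instance (X : Type u) [TopologicalSpace X] : Preorder (Cond X) where
  le q p := List.Forall₂ (· ⊆ ·) q.l p.l
  le_refl p := List.forall₂_same.mpr fun _ _ => subset_rfl
  le_trans p q r h1 h2 := by
    have key : ∀ (l₁ l₂ l₃ : List (Set X)), List.Forall₂ (· ⊆ ·) l₁ l₂ →
        List.Forall₂ (· ⊆ ·) l₂ l₃ → List.Forall₂ (· ⊆ ·) l₁ l₃ := by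
      intro l₁ l₂ l₃ h1
      induction h1 generalizing l₃ with
      | nil => intro h; cases h; exact List.Forall₂.nil
      | cons hab _ ih =>
        intro h
        cases h with
        | cons hbc hr => exact List.Forall₂.cons (hab.trans hbc) (ih _ hr)
    exact key _ _ _ h1 h2

/-- The conditions captured by `U`. -/
def capO (X : Type u) [TopologicalSpace X] (U : Set X) : Set (Cond X) := {p | ∀ F ∈ p.l, F ⊆ U}

/-- Open sets which are not dense. -/
def admO (X : Type u) [TopologicalSpace X] : Set (Set X) :=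
  {U | IsOpen U ∧ ¬ (univ : Set X) ⊆ closure U}

theorem goodO (X : Type u) [TopologicalSpace X] : Good (capO X) (admO X) where
  lower U p q hqp hp F hF := by
    obtain ⟨F', hF', h⟩ := forall₂_left hqp F hF
    exact h.trans (hp F' hF')
  inter U V := by
    ext p
    simp only [capO, mem_inter_iff, mem_ofPred_eq, subset_inter_iff]
    constructor
    · intro h
      exact ⟨fun F hF => (h F hF).1, fun F hF => (h F hF).2⟩
    · rintro ⟨h1, h2⟩ F hF
      exact ⟨h1 F hF, h2 F hF⟩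
  adm_inter U hU V hV :=
    ⟨hU.1.inter hV.1, fun h => hU.2 (h.trans (closure_mono inter_subset_left))⟩

instance (X : Type u) [TopologicalSpace X] : Nonempty (Cond X) :=
  ⟨⟨[], fun F hF => by simp at hF⟩⟩

theorem fam_iff (X : Type u) [TopologicalSpace X] (𝒰 : Set (Set X)) :
    Fam (capO X) (admO X) 𝒰 ↔
      ((∀ U ∈ 𝒰, IsOpen U) ∧ Dense (⋃₀ 𝒰)) ∧ (∀ U ∈ 𝒰, ¬ (univ : Set X) ⊆ closure U) ∧
      ∀ ℱ : Set (Set X), ℱ.Finite → (∀ F ∈ ℱ, IsOpen F ∧ F.Nonempty) →
        ∃ U ∈ 𝒰, ∀ F ∈ ℱ, (U ∩ F).Nonempty := by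
  classical
  constructor
  · rintro ⟨h1, h2⟩
    have key : ∀ ℱ : Set (Set X), ℱ.Finite → (∀ F ∈ ℱ, IsOpen F ∧ F.Nonempty) →
        ∃ U ∈ 𝒰, ∀ F ∈ ℱ, (U ∩ F).Nonempty := by
      intro ℱ hℱ hop
      obtain ⟨q, hq, hqU⟩ := h2 ⟨hℱ.toFinset.toList, fun F hF => hop F (by simpa using hF)⟩
      simp only [mem_iUnion] at hqU
      obtain ⟨U, hU, hqU⟩ := hqU
      refine ⟨U, hU, fun F hF => ?_⟩
      obtain ⟨F', hF', h⟩ := forall₂_right hq F (by simpa using hF)
      obtain ⟨x, hx⟩ := (q.isOpen F' hF').2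
      exact ⟨x, hqU F' hF' hx, h hx⟩
    refine ⟨⟨fun U hU => (h1 hU).1, ?_⟩, fun U hU => (h1 hU).2, key⟩
    rw [dense_iff_inter_open]
    intro O hO hne
    obtain ⟨U, hU, h⟩ := key {O} (finite_singleton O) (by
      rintro F rfl; exact ⟨hO, hne⟩)
    obtain ⟨x, hxU, hxO⟩ := h O rfl
    exact ⟨x, hxO, mem_sUnion.mpr ⟨U, hU, hxU⟩⟩
  · rintro ⟨⟨h1, _⟩, h2, h3⟩
    refine ⟨fun U hU => ⟨h1 U hU, h2 U hU⟩, fun p => ?_⟩
    obtain ⟨U, hU, h⟩ := h3 {F | F ∈ p.l} (List.finite_toSet p.l) (fun F hF => p.isOpen F hF)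
    refine ⟨⟨p.l.map fun F => U ∩ F, ?_⟩, ?_, mem_biUnion hU ?_⟩
    · intro F hF
      obtain ⟨F', hF', rfl⟩ := List.mem_map.mp hF
      exact ⟨(h1 U hU).inter (p.isOpen F' hF').1, h F' hF'⟩
    · show List.Forall₂ (· ⊆ ·) (p.l.map fun F => U ∩ F) p.l
      rw [List.forall₂_map_left_iff]
      exact List.forall₂_same.mpr fun F _ => inter_subset_right
    · intro F hF
      obtain ⟨F', hF', rfl⟩ := List.mem_map.mp hF
      exact inter_subset_left

end Pool.Agent.Helper63.Sel
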