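import Pool.Agent.Helper63.Sel.Tree

/-!
Selection principles imply that the first player has no winning strategy.
-/

namespace Pool.Agent.Helper63.Sel

open Set

universe u v

section

variable {X : Type u} {P : Type v} [Preorder P] {cap : Set X → Set P} {adm : Set (Set X)}

/-- The histories of finite selections along a node. -/
def histFin {X : Type u} (e : List (Set (Set X)) → ℕ → Set X) : List ℕ → List (Set (Set X))
  | [] => []
  | m :: s => {U | ∃ i < m, e (histFin e s) i = U} :: histFin e s

/-- The histories of single selections along a node. -/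
def histOne {X : Type u} (e : List (Set X) → ℕ → Set X) : List ℕ → List (Set X)
  | [] => []
  | k :: s => e (histOne e s) k :: histOne e s

theorem histFin_hist (e : List (Set (Set X)) → ℕ → Set X) (f : ℕ → ℕ) (n : ℕ) :
    hist (fun n => {U | ∃ i < f n, e (histFin e (hist f n)) i = U}) n = histFin e (hist f n) := by
  induction n with
  | zero => rfl
  | succ n ih =>
    show {U | ∃ i < f n, e (histFin e (hist f n)) i = U} ::
      hist (fun n => {U | ∃ i < f n, e (histFin e (hist f n)) i = U}) n = _
    rw [ih]
    rfl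

theorem histOne_hist (e : List (Set X) → ℕ → Set X) (f : ℕ → ℕ) (n : ℕ) :
    hist (fun n => e (histOne e (hist f n)) (f n)) n = histOne e (hist f n) := by
  induction n with
  | zero => rfl
  | succ n ih =>
    show e (histOne e (hist f n)) (f n) ::
      hist (fun n => e (histOne e (hist f n)) (f n)) n = _
    rw [ih]
    rfl

/-- Beating a strategy with finite selections. `L h` says that the history `h` is legal. -/
theorem beat_fin [hne : Nonempty P] (hg : Good cap adm) (hS : SelFin cap adm)
    (σ : List (Set (Set X)) → Set (Set X)) (L : List (Set (Set X)) → Prop) (hL0 : L [])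
    (hL : ∀ h ℱ, L h → ℱ.Finite → ℱ ⊆ σ h → L (ℱ :: h)) (hσ : ∀ h, L h → Fam cap adm (σ h)) :
    ∃ ℱ : ℕ → Set (Set X), (∀ n, (ℱ n).Finite ∧ ℱ n ⊆ σ (hist ℱ n)) ∧
      Fam cap adm (⋃ n, ℱ n) := by
  classical
  have h1 : ∀ h, ∃ e : ℕ → Set X, L h → (∀ i, e i ∈ σ h) ∧ Dn (⋃ i, cap (e i)) := by
    intro h
    by_cases hh : L h
    · obtain ⟨e, he⟩ := hS.countable (hσ h hh) hne
      exact ⟨e, fun _ => he⟩
    · exact ⟨fun _ => ∅, fun h' => absurd h' hh⟩
  choose e he using h1
  have hleg : ∀ s : List ℕ, L (histFin e s) := by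
    intro s
    induction s with
    | nil => exact hL0
    | cons m s ih =>
      refine hL _ _ ih ?_ ?_
      · have : {U | ∃ i < m, e (histFin e s) i = U} = (e (histFin e s)) '' {i | i < m} := rfl
        rw [this]
        exact (finite_lt_nat m).image _
      · rintro U ⟨i, _, rfl⟩
        exact (he _ ih).1 i
  have hadm : ∀ s i, e (histFin e s) i ∈ adm := fun s i => (hσ _ (hleg s)).1 ((he _ (hleg s)).1 i)
  obtain ⟨f, hf⟩ := tree_lemma (en := fun s i => e (histFin e s) i) hg hS hadm
    (fun s => (he _ (hleg s)).2)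
  let ℱ : ℕ → Set (Set X) := fun n => {U | ∃ i < f n, e (histFin e (hist f n)) i = U}
  have hsub : ∀ n, ℱ n ⊆ σ (hist ℱ n) := by
    intro n
    rw [show hist ℱ n = histFin e (hist f n) from histFin_hist e f n]
    rintro U ⟨i, _, rfl⟩
    exact (he _ (hleg _)).1 i
  refine ⟨ℱ, fun n => ⟨?_, hsub n⟩, ?_, ?_⟩
  · have : ℱ n = (e (histFin e (hist f n))) '' {i | i < f n} := rfl
    rw [this]
    exact (finite_lt_nat _).image _
  · intro U hU
    obtain ⟨n, i, _, rfl⟩ := mem_iUnion.mp hU
    exact hadm _ i
  · refine (hf 0).mono ?_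
    rintro q ⟨n, _, i, hi, hq⟩
    exact mem_biUnion (mem_iUnion.mpr ⟨n, i, hi, rfl⟩) hq

/-- A list of finite sets with room has distinct representatives. -/
theorem exists_representatives (M : ℕ → Finset ℕ) (hM : ∀ n, n < (M n).card) :
    ∃ l : ℕ → ℕ, Function.Injective l ∧ ∀ n, l n ∈ M n := by
  classical
  have h1 : ∀ h : List ℕ, ∃ x, x ∈ M h.length ∧ x ∉ h := by
    intro h
    by_contra hcon
    push Not at hcon
    have h2 : M h.length ⊆ h.toFinset := fun x hx => List.mem_toFinset.mpr (hcon x hx)
    have h3 := (Finset.card_le_card h2).trans (List.toFinset_card_le h)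
    have := hM h.length
    omega
  choose F hF1 hF2 using h1
  obtain ⟨l, hl⟩ := exists_hist F
  have hmem : ∀ i n, i < n → l i ∈ hist l n := by
    intro i n hin
    induction n with
    | zero => omega
    | succ n ih =>
      rcases Nat.lt_succ_iff_lt_or_eq.mp hin with h | h
      · exact List.mem_cons_of_mem _ (ih h)
      · subst h; exact List.mem_cons_self
  refine ⟨l, ?_, fun n => ?_⟩
  · have key : ∀ a b, a < b → l a ≠ l b := by
      intro a b hab heq
      apply hF2 (hist l b)
      rw [← hl b, ← heq]
      exact hmem a b hab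
    intro a b hab
    rcases lt_trichotomy a b with h | h | h
    · exact absurd hab (key a b h)
    · exact h
    · exact absurd hab.symm (key b a h)
  · have := hF1 (hist l n)
    rwa [hist_length, ← hl n] at this

/-- Intersection over a finite nonempty set of indices. -/
theorem cap_biInter (hg : Good cap adm) {ι : Type} (T : Finset ι) (hT : T.Nonempty)
    (U : ι → Set X) (hU : ∀ s ∈ T, U s ∈ adm) :
    (⋂ s ∈ T, U s) ∈ adm ∧ cap (⋂ s ∈ T, U s) = ⋂ s ∈ T, cap (U s) := by
  classical
  induction hT using Finset.Nonempty.cons_induction with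
  | singleton a => simpa using hU a (by simp)
  | cons a T ha _ ih =>
    obtain ⟨h1, h2⟩ := ih fun s hs => hU s (Finset.mem_cons_of_mem hs)
    have h3 : (⋂ s ∈ Finset.cons a T ha, U s) = U a ∩ ⋂ s ∈ T, U s := by
      ext x; simp
    have h4 : (⋂ s ∈ Finset.cons a T ha, cap (U s)) = cap (U a) ∩ ⋂ s ∈ T, cap (U s) := by
      ext x; simp
    rw [h3, h4, hg.inter, h2]
    exact ⟨hg.adm_inter _ (hU a (Finset.mem_cons_self a T)) _ h1, rfl⟩

/-- Beating a strategy with single selections. -/
theorem beat_one [hne : Nonempty P] (hg : Good cap adm) (hS : SelOne cap adm)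
    (σ : List (Set X) → Set (Set X)) (L : List (Set X) → Prop) (hL0 : L [])
    (hL : ∀ h U, L h → U ∈ σ h → L (U :: h)) (hσ : ∀ h, L h → Fam cap adm (σ h)) :
    ∃ U : ℕ → Set X, (∀ n, U n ∈ σ (hist U n)) ∧ Fam cap adm (range U) := by
  classical
  have hSf := hS.selFin
  have h1 : ∀ h, ∃ e : ℕ → Set X, L h → (∀ i, e i ∈ σ h) ∧ Dn (⋃ i, cap (e i)) := by
    intro h
    by_cases hh : L h
    · obtain ⟨e, he⟩ := hSf.countable (hσ h hh) hne
      exact ⟨e, fun _ => he⟩
    · exact ⟨fun _ => ∅, fun h' => absurd h' hh⟩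
  choose e he using h1
  have hleg : ∀ s : List ℕ, L (histOne e s) := by
    intro s
    induction s with
    | nil => exact hL0
    | cons k s ih => exact hL _ _ ih ((he _ ih).1 k)
  have hadm : ∀ s i, e (histOne e s) i ∈ adm := fun s i => (hσ _ (hleg s)).1 ((he _ (hleg s)).1 i)
  have hdense : ∀ s, Dn (⋃ i, cap (e (histOne e s) i)) := fun s => (he _ (hleg s)).2
  -- choice functions
  obtain ⟨dec, hdec⟩ := exists_surjective_nat (List ℕ →₀ ℕ)
  let T : List ℕ → Finset (List ℕ) := fun t => List.rec {[]}
    (fun m _ T => (T ×ˢ Finset.range (m + 1)).image fun q => dec q.2 q.1 :: q.1) t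
  have hT0 : T [] = {[]} := rfl
  have hTc : ∀ m t, T (m :: t) =
      (T t ×ˢ Finset.range (m + 1)).image fun q => dec q.2 q.1 :: q.1 := fun m t => rfl
  have hTne : ∀ t, (T t).Nonempty := by
    intro t
    induction t with
    | nil => rw [hT0]; exact Finset.singleton_nonempty _
    | cons m t ih =>
      rw [hTc]
      exact (ih.product (by simp)).image _
  let en : List ℕ → ℕ → Set X := fun t i => ⋂ s ∈ T t, e (histOne e s) (dec i s)
  have hen : ∀ t i, en t i ∈ adm ∧ cap (en t i) = ⋂ s ∈ T t, cap (e (histOne e s) (dec i s)) :=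
    fun t i => cap_biInter hg (T t) (hTne t) (fun s => e (histOne e s) (dec i s))
      (fun s _ => hadm s _)
  have hend : ∀ t, Dn (⋃ i, cap (en t i)) := by
    intro t p
    have key : ∀ S : Finset (List ℕ), ∃ q ≤ p, ∃ k : List ℕ →₀ ℕ,
        ∀ s ∈ S, q ∈ cap (e (histOne e s) (k s)) := by
      intro S
      induction S using Finset.induction_on with
      | empty => exact ⟨p, le_rfl, 0, fun s hs => absurd hs (Finset.notMem_empty s)⟩
      | insert a S ha ih =>
        obtain ⟨q, hq, k, hk⟩ := ih
        obtain ⟨q', hq', hq'2⟩ := hdense a q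
        obtain ⟨i, hi⟩ := mem_iUnion.mp hq'2
        refine ⟨q', hq'.trans hq, k.update a i, fun s hs => ?_⟩
        rcases Finset.mem_insert.mp hs with rfl | hs
        · simpa using hi
        · have hsa : s ≠ a := fun h => ha (h ▸ hs)
          rw [Finsupp.coe_update, Function.update_of_ne hsa]
          exact hg.lower _ _ _ hq' (hk s hs)
    obtain ⟨q, hq, k, hk⟩ := key (T t)
    obtain ⟨i, rfl⟩ := hdec k
    refine ⟨q, hq, mem_iUnion.mpr ⟨i, ?_⟩⟩
    rw [(hen t i).2]
    simpa using hk
  obtain ⟨f, hf⟩ := tree_lemma (en := en) hg hSf (fun t i => (hen t i).1) hend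
  -- the families to which the selection principle is applied
  obtain ⟨Q, hQ1, hQ2⟩ := hS (fun n => {O | ∃ (M : Finset ℕ) (ι : ℕ → ℕ), M.card = n + 1 ∧
    (∀ m ∈ M, ι m < f m) ∧ O = ⋂ m ∈ M, en (hist f m) (ι m)}) (by
      intro n
      constructor
      · rintro O ⟨M, ι, hM, hι, rfl⟩
        exact (cap_biInter hg M (Finset.card_pos.mp (by omega)) _ (fun m _ => (hen _ _).1)).1
      · intro p
        have key : ∀ k, ∃ q ≤ p, ∃ (M : Finset ℕ) (ι : ℕ → ℕ), M.card = k ∧
            (∀ m ∈ M, ι m < f m) ∧ ∀ m ∈ M, q ∈ cap (en (hist f m) (ι m)) := by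
          intro k
          induction k with
          | zero => exact ⟨p, le_rfl, ∅, id, rfl, by simp, by simp⟩
          | succ k ih =>
            obtain ⟨q, hq, M, ι, h1, h2, h3⟩ := ih
            obtain ⟨q', hq', m, hm, i, hi, hqi⟩ := hf (M.sup id + 1) q
            have hmM : m ∉ M := by
              intro hmM
              have := Finset.le_sup (f := id) hmM
              simp only [id] at this
              omega
            refine ⟨q', hq'.trans hq, insert m M, Function.update ι m i, ?_, ?_, ?_⟩
            · rw [Finset.card_insert_of_notMem hmM, h1]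
            · intro m' hm'
              rcases Finset.mem_insert.mp hm' with rfl | hm'
              · rw [Function.update_self]; exact hi
              · have : m' ≠ m := fun h => hmM (h ▸ hm')
                rw [Function.update_of_ne this]; exact h2 m' hm'
            · intro m' hm'
              rcases Finset.mem_insert.mp hm' with rfl | hm'
              · rw [Function.update_self]; exact hqi
              · have : m' ≠ m := fun h => hmM (h ▸ hm')
                rw [Function.update_of_ne this]; exact hg.lower _ _ _ hq' (h3 m' hm')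
        obtain ⟨q, hq, M, ι, h1, h2, h3⟩ := key (n + 1)
        refine ⟨q, hq, mem_biUnion (show (⋂ m ∈ M, en (hist f m) (ι m)) ∈ _ from
          ⟨M, ι, h1, h2, rfl⟩) ?_⟩
        rw [(cap_biInter hg M (Finset.card_pos.mp (by omega)) _ (fun m _ => (hen _ _).1)).2]
        simpa using h3)
  choose M ι hM hι hQ using hQ1
  obtain ⟨l, hl1, hl2⟩ := exists_representatives M (fun n => by rw [hM]; omega)
  -- the branch
  obtain ⟨b, hb⟩ := exists_hist fun s : List ℕ =>
    if h : ∃ n, l n = s.length then dec (ι (Classical.choose h) s.length) s else dec 0 s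
  have hbl : ∀ n, b (l n) = dec (ι n (l n)) (hist b (l n)) := by
    intro n
    rw [hb (l n)]
    simp only [hist_length]
    have hex : ∃ n', l n' = l n := ⟨n, rfl⟩
    rw [dif_pos hex]
    have : Classical.choose hex = n := hl1 (Classical.choose_spec hex)
    rw [this]
  have hbT : ∀ m, hist b m ∈ T (hist f m) := by
    intro m
    induction m with
    | zero => simp [hist, hT0]
    | succ m ih =>
      show b m :: hist b m ∈ T (f m :: hist f m)
      rw [hTc, Finset.mem_image]
      by_cases hex : ∃ n, l n = m
      · obtain ⟨n, rfl⟩ := hex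
        refine ⟨(hist b (l n), ι n (l n)), ?_, by simp only [hbl]⟩
        rw [Finset.mem_product, Finset.mem_range]
        exact ⟨ih, Nat.lt_succ_of_lt (hι n (l n) (hl2 n))⟩
      · refine ⟨(hist b m, 0), ?_, ?_⟩
        · rw [Finset.mem_product, Finset.mem_range]
          exact ⟨ih, Nat.succ_pos _⟩
        · have h2 : b m = dec 0 (hist b m) := by
            rw [hb m]
            have : ¬ ∃ n, l n = (hist b m).length := by rw [hist_length]; exact hex
            rw [dif_neg this]
          simp only [← h2]
  let V : ℕ → Set X := fun n => e (histOne e (hist b n)) (b n)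
  have hV : ∀ n, hist V n = histOne e (hist b n) := fun n => histOne_hist e b n
  refine ⟨V, fun n => ?_, ?_, ?_⟩
  · rw [hV]
    exact (he _ (hleg _)).1 (b n)
  · rintro U ⟨n, rfl⟩
    exact hadm _ _
  · refine hQ2.2.mono fun q hq => ?_
    simp only [mem_iUnion] at hq
    obtain ⟨O, ⟨n, rfl⟩, hqO⟩ := hq
    refine mem_biUnion (mem_range_self (l n)) ?_
    rw [hQ n, (cap_biInter hg (M n) (Finset.card_pos.mp (by rw [hM]; omega)) _
      (fun m _ => (hen _ _).1)).2] at hqO
    simp only [mem_iInter] at hqO
    have h2 := hqO (l n) (hl2 n)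
    rw [(hen _ _).2] at h2
    simp only [mem_iInter] at h2
    have h3 := h2 (hist b (l n)) (hbT (l n))
    show q ∈ cap (e (histOne e (hist b (l n))) (b (l n)))
    rw [hbl n]
    exact h3

end

end Pool.Agent.Helper63.Sel
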