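import Mathlib

/-!
Hurewicz and Pawlikowski type arguments for families which are dense in a preorder.
-/

namespace Pool.Agent.Helper63.Sel

open Set

universe u v

/-- The first `n` members of the sequence `p`, the latest first. -/
def hist {α : Type u} (p : ℕ → α) : ℕ → List α
  | 0 => []
  | n + 1 => p n :: hist p n

theorem hist_length {α : Type u} (p : ℕ → α) (n : ℕ) : (hist p n).length = n := by
  induction n with
  | zero => rfl
  | succ n ih => simp [hist, ih]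

theorem exists_hist {α : Type u} (F : List α → α) : ∃ f : ℕ → α, ∀ n, f n = F (hist f n) := by
  let H : ℕ → List α := fun n => Nat.rec [] (fun _ h => F h :: h) n
  refine ⟨fun n => F (H n), fun n => ?_⟩
  have h1 : ∀ n, hist (fun n => F (H n)) n = H n := by
    intro n
    induction n with
    | zero => rfl
    | succ n ih => simp only [hist, ih]; rfl
  rw [h1]

theorem hist_add {α : Type u} (p : ℕ → α) (k m : ℕ) :
    hist p (k + m) = hist (fun i => p (k + i)) m ++ hist p k := by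
  induction m with
  | zero => rfl
  | succ m ih =>
    show p (k + m) :: hist p (k + m) = p (k + m) :: (hist (fun i => p (k + i)) m ++ hist p k)
    rw [ih]

theorem hist_suffix {α : Type u} (p : ℕ → α) {n m : ℕ} (h : n ≤ m) : hist p n <:+ hist p m := by
  induction m, h using Nat.le_induction with
  | base => exact List.suffix_refl _
  | succ m _ ih => exact ih.trans (List.suffix_cons _ _)

/-- Every condition can be strengthened to one in `S`. -/
def Dn {P : Type v} [Preorder P] (S : Set P) : Prop := ∀ p, ∃ q ≤ p, q ∈ S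

theorem Dn.mono {P : Type v} [Preorder P] {S T : Set P} (h : Dn S) (hST : S ⊆ T) : Dn T :=
  fun p => let ⟨q, h1, h2⟩ := h p; ⟨q, h1, hST h2⟩

/-- The properties of the capture map which are used. -/
structure Good {X : Type u} {P : Type v} [Preorder P] (cap : Set X → Set P)
    (adm : Set (Set X)) : Prop where
  lower : ∀ U p q, q ≤ p → p ∈ cap U → q ∈ cap U
  inter : ∀ U V, cap (U ∩ V) = cap U ∩ cap V
  adm_inter : ∀ U ∈ adm, ∀ V ∈ adm, U ∩ V ∈ adm

/-- Admissible families. -/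
def Fam {X : Type u} {P : Type v} [Preorder P] (cap : Set X → Set P)
    (adm : Set (Set X)) (𝒰 : Set (Set X)) : Prop := 𝒰 ⊆ adm ∧ Dn (⋃ U ∈ 𝒰, cap U)

def SelFin {X : Type u} {P : Type v} [Preorder P] (cap : Set X → Set P)
    (adm : Set (Set X)) : Prop :=
  ∀ 𝒰 : ℕ → Set (Set X), (∀ n, Fam cap adm (𝒰 n)) →
    ∃ ℱ : ℕ → Set (Set X), (∀ n, (ℱ n).Finite ∧ ℱ n ⊆ 𝒰 n) ∧ Fam cap adm (⋃ n, ℱ n)

def SelOne {X : Type u} {P : Type v} [Preorder P] (cap : Set X → Set P)
    (adm : Set (Set X)) : Prop :=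
  ∀ 𝒰 : ℕ → Set (Set X), (∀ n, Fam cap adm (𝒰 n)) →
    ∃ U : ℕ → Set X, (∀ n, U n ∈ 𝒰 n) ∧ Fam cap adm (range U)

section

variable {X : Type u} {P : Type v} [Preorder P] {cap : Set X → Set P} {adm : Set (Set X)}

theorem SelOne.selFin (h : SelOne cap adm) : SelFin cap adm := by
  intro 𝒰 h𝒰
  obtain ⟨U, h1, h2⟩ := h 𝒰 h𝒰
  refine ⟨fun n => {U n}, fun n => ⟨finite_singleton _, singleton_subset_iff.mpr (h1 n)⟩, ?_⟩
  rwa [iUnion_singleton_eq_range]

/-- Every admissible family has an enumerated admissible subfamily. -/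
theorem SelFin.countable (h : SelFin cap adm) {𝒰 : Set (Set X)} (h𝒰 : Fam cap adm 𝒰)
    (hne : Nonempty P) : ∃ e : ℕ → Set X, (∀ i, e i ∈ 𝒰) ∧ Dn (⋃ i, cap (e i)) := by
  obtain ⟨ℱ, h1, h2⟩ := h (fun _ => 𝒰) (fun _ => h𝒰)
  have hcount : (⋃ n, ℱ n).Countable := countable_iUnion fun n => (h1 n).1.countable
  have hnonempty : (⋃ n, ℱ n).Nonempty := by
    obtain ⟨p⟩ := hne
    obtain ⟨q, _, hq⟩ := h2.2 p
    simp only [mem_iUnion] at hq
    obtain ⟨U, ⟨n, hU⟩, _⟩ := hq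
    exact ⟨U, mem_iUnion.mpr ⟨n, hU⟩⟩
  obtain ⟨e, he⟩ := hcount.exists_eq_range hnonempty
  refine ⟨e, fun i => ?_, ?_⟩
  · have h3 : e i ∈ ⋃ n, ℱ n := by rw [he]; exact mem_range_self i
    obtain ⟨n, hn⟩ := mem_iUnion.mp h3
    exact (h1 n).2 hn
  · refine h2.2.mono fun q hq => ?_
    simp only [mem_iUnion] at hq ⊢
    obtain ⟨U, ⟨n, hU⟩, hqU⟩ := hq
    have h3 : U ∈ range e := by rw [← he]; exact mem_iUnion.mpr ⟨n, hU⟩
    obtain ⟨i, rfl⟩ := h3
    exact ⟨i, hqU⟩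

/-- The set is a union of sets captured by admissible sets. -/
def Gen (cap : Set X → Set P) (adm : Set (Set X)) (S : Set P) : Prop :=
  ∀ q ∈ S, ∃ b ∈ adm, q ∈ cap b ∧ cap b ⊆ S

theorem Gen.inter (hg : Good cap adm) {S T : Set P} (hS : Gen cap adm S) (hT : Gen cap adm T) :
    Gen cap adm (S ∩ T) := by
  rintro q ⟨hqS, hqT⟩
  obtain ⟨b, hb, hqb, hbS⟩ := hS q hqS
  obtain ⟨c, hc, hqc, hcT⟩ := hT q hqT
  refine ⟨b ∩ c, hg.adm_inter b hb c hc, ?_, ?_⟩
  · rw [hg.inter]; exact ⟨hqb, hqc⟩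
  · rw [hg.inter]; exact inter_subset_inter hbS hcT

theorem Gen.union {S T : Set P} (hS : Gen cap adm S) (hT : Gen cap adm T) :
    Gen cap adm (S ∪ T) := by
  rintro q (hq | hq)
  · obtain ⟨b, hb, hqb, hbS⟩ := hS q hq
    exact ⟨b, hb, hqb, hbS.trans subset_union_left⟩
  · obtain ⟨b, hb, hqb, hbS⟩ := hT q hq
    exact ⟨b, hb, hqb, hbS.trans subset_union_right⟩

theorem Gen.forall_lt (hg : Good cap adm) {S₀ : Set P} {S : ℕ → Set P} (h0 : Gen cap adm S₀)
    (hS : ∀ i, Gen cap adm (S i)) (k : ℕ) : Gen cap adm {p | p ∈ S₀ ∧ ∀ i < k, p ∈ S i} := by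
  induction k with
  | zero =>
    have : {p | p ∈ S₀ ∧ ∀ i < 0, p ∈ S i} = S₀ := by ext p; simp
    rw [this]; exact h0
  | succ k ih =>
    have : {p | p ∈ S₀ ∧ ∀ i < k + 1, p ∈ S i} = {p | p ∈ S₀ ∧ ∀ i < k, p ∈ S i} ∩ S k := by
      ext p
      simp only [mem_inter_iff, mem_ofPred_eq]
      constructor
      · rintro ⟨h1, h2⟩
        exact ⟨⟨h1, fun i hi => h2 i (by omega)⟩, h2 k (by omega)⟩
      · rintro ⟨⟨h1, h2⟩, h3⟩
        refine ⟨h1, fun i hi => ?_⟩
        rcases Nat.lt_succ_iff_lt_or_eq.mp hi with h4 | h4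
        · exact h2 i h4
        · subst h4; exact h3
    rw [this]
    exact ih.inter hg (hS k)

/-- The conditions captured by the first `m` members at the node `s`. -/
def W (cap : Set X → Set P) (en : List ℕ → ℕ → Set X) (s : List ℕ) (m : ℕ) : Set P :=
  {q | ∃ i < m, q ∈ cap (en s i)}

/-- The conditions captured along all short paths with values at most `m`. -/
def G (cap : Set X → Set P) (en : List ℕ → ℕ → Set X) : ℕ → List ℕ → ℕ → Set P
  | 0, r, m => W cap en r m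
  | n + 1, r, m => {p | p ∈ W cap en r m ∧ ∀ i < m + 1, p ∈ W cap en r i ∪ G cap en n (i :: r) m}

variable {en : List ℕ → ℕ → Set X}

theorem W_mono {s : List ℕ} {m m' : ℕ} (h : m ≤ m') : W cap en s m ⊆ W cap en s m' := by
  rintro q ⟨i, hi, hq⟩
  exact ⟨i, lt_of_lt_of_le hi h, hq⟩

theorem W_lower (hg : Good cap adm) {s : List ℕ} {m : ℕ} {p q : P} (hqp : q ≤ p)
    (hp : p ∈ W cap en s m) : q ∈ W cap en s m := by
  obtain ⟨i, hi, h⟩ := hp
  exact ⟨i, hi, hg.lower _ _ _ hqp h⟩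

theorem W_gen (hadm : ∀ s i, en s i ∈ adm) (s : List ℕ) (m : ℕ) : Gen cap adm (W cap en s m) := by
  rintro q ⟨i, hi, hq⟩
  exact ⟨en s i, hadm s i, hq, fun q' hq' => ⟨i, hi, hq'⟩⟩

theorem G_lower (hg : Good cap adm) (n : ℕ) : ∀ (r : List ℕ) (m : ℕ) (p q : P), q ≤ p →
    p ∈ G cap en n r m → q ∈ G cap en n r m := by
  induction n with
  | zero => intro r m p q hqp hp; exact W_lower hg hqp hp
  | succ n ih =>
    rintro r m p q hqp ⟨h1, h2⟩
    refine ⟨W_lower hg hqp h1, fun i hi => ?_⟩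
    rcases h2 i hi with h | h
    · exact Or.inl (W_lower hg hqp h)
    · exact Or.inr (ih _ _ _ _ hqp h)

theorem G_gen (hg : Good cap adm) (hadm : ∀ s i, en s i ∈ adm) (n : ℕ) :
    ∀ (r : List ℕ) (m : ℕ), Gen cap adm (G cap en n r m) := by
  induction n with
  | zero => intro r m; exact W_gen hadm r m
  | succ n ih =>
    intro r m
    exact Gen.forall_lt hg (W_gen hadm r m) (fun i => (W_gen hadm r i).union (ih (i :: r) m))
      (m + 1)

theorem G_dense (hg : Good cap adm) (hd : ∀ s, Dn (⋃ i, cap (en s i))) (n : ℕ) :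
    ∀ (r : List ℕ) (p : P), ∃ q ≤ p, ∃ m₀, ∀ m, m₀ ≤ m → q ∈ G cap en n r m := by
  have hW : ∀ (r : List ℕ) (p : P), ∃ q ≤ p, ∃ m₀, ∀ m, m₀ ≤ m → q ∈ W cap en r m := by
    intro r p
    obtain ⟨q, hqp, hq⟩ := hd r p
    obtain ⟨i, hi⟩ := mem_iUnion.mp hq
    exact ⟨q, hqp, i + 1, fun m hm => ⟨i, by omega, hi⟩⟩
  induction n with
  | zero => exact hW
  | succ n ih =>
    intro r p
    obtain ⟨q₀, hq₀, m₀, hm₀⟩ := hW r p
    have key : ∀ k, ∃ q ≤ q₀, ∃ M, ∀ i < k, ∀ m, M ≤ m → q ∈ G cap en n (i :: r) m := by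
      intro k
      induction k with
      | zero => exact ⟨q₀, le_rfl, 0, fun i hi => absurd hi (Nat.not_lt_zero i)⟩
      | succ k ihk =>
        obtain ⟨q, hq, M, hM⟩ := ihk
        obtain ⟨q', hq', M', hM'⟩ := ih (k :: r) q
        refine ⟨q', hq'.trans hq, max M M', fun i hi m hm => ?_⟩
        rcases Nat.lt_succ_iff_lt_or_eq.mp hi with h | h
        · exact G_lower hg n _ _ _ _ hq' (hM i h m ((le_max_left _ _).trans hm))
        · subst h; exact hM' m ((le_max_right _ _).trans hm)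
    obtain ⟨q, hq, M, hM⟩ := key m₀
    refine ⟨q, hq.trans hq₀, max m₀ M, fun m hm => ⟨?_, fun i hi => ?_⟩⟩
    · exact W_lower hg hq (hm₀ m ((le_max_left _ _).trans hm))
    · rcases lt_or_ge i m₀ with h | h
      · exact Or.inr (hM i h m ((le_max_right _ _).trans hm))
      · exact Or.inl (W_lower hg hq (hm₀ i h))

/-- A path which is large at the right place captures. -/
theorem G_path (n : ℕ) : ∀ (r : List ℕ) (m : ℕ) (f : ℕ → ℕ) (p : P), p ∈ G cap en n r m →
    m ≤ f n → ∃ j ≤ n, p ∈ W cap en (hist f j ++ r) (f j) := by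
  induction n with
  | zero =>
    intro r m f p hp hm
    exact ⟨0, le_rfl, W_mono hm hp⟩
  | succ n ih =>
    rintro r m f p ⟨h1, h2⟩ hm
    rcases le_or_gt m (f 0) with h | h
    · exact ⟨0, Nat.zero_le _, W_mono h h1⟩
    · rcases h2 (f 0) (by omega) with h3 | h3
      · exact ⟨0, Nat.zero_le _, h3⟩
      · obtain ⟨j, hj, hp⟩ := ih (f 0 :: r) m (fun i => f (i + 1)) p h3 hm
        refine ⟨j + 1, by omega, ?_⟩
        have h4 : hist f (j + 1) ++ r = hist (fun i => f (i + 1)) j ++ (f 0 :: r) := by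
          have h5 := hist_add f 1 j
          rw [Nat.add_comm 1 j] at h5
          rw [h5]
          have h6 : (fun i => f (1 + i)) = fun i => f (i + 1) := by
            funext i; rw [Nat.add_comm]
          rw [h6]
          simp [hist]
        rw [h4]
        exact hp

/-- The tree lemma: some path captures a dense set of conditions, from any moment on. -/
theorem tree_lemma (hg : Good cap adm) (hS : SelFin cap adm) (hadm : ∀ s i, en s i ∈ adm)
    (hd : ∀ s, Dn (⋃ i, cap (en s i))) :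
    ∃ f : ℕ → ℕ, ∀ N, Dn {q | ∃ n, N ≤ n ∧ q ∈ W cap en (hist f n) (f n)} := by
  classical
  have h1 : ∀ r : List ℕ, ∃ g : ℕ → ℕ, ∀ f : ℕ → ℕ, (∀ n, g n ≤ f n) →
      Dn {q | ∃ j, q ∈ W cap en (hist f j ++ r) (f j)} := by
    intro r
    obtain ⟨ℱ, hℱ1, hℱ2⟩ := hS (fun n => {b | b ∈ adm ∧ ∃ m, cap b ⊆ G cap en n r m}) (by
      intro n
      refine ⟨fun b hb => hb.1, fun p => ?_⟩
      obtain ⟨q, hqp, m₀, hq⟩ := G_dense hg hd n r p
      obtain ⟨b, hb, hqb, hbG⟩ := G_gen hg hadm n r m₀ q (hq m₀ le_rfl)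
      exact ⟨q, hqp, mem_biUnion (show b ∈ {b | b ∈ adm ∧ ∃ m, cap b ⊆ G cap en n r m} from
        ⟨hb, m₀, hbG⟩) hqb⟩)
    have h2 : ∀ n, ∃ M, ∀ b ∈ ℱ n, ∃ m ≤ M, cap b ⊆ G cap en n r m := by
      intro n
      have h3 : ∀ b : Set X, ∃ m, b ∈ ℱ n → cap b ⊆ G cap en n r m := by
        intro b
        by_cases hb : b ∈ ℱ n
        · obtain ⟨m, hm⟩ := ((hℱ1 n).2 hb).2
          exact ⟨m, fun _ => hm⟩
        · exact ⟨0, fun h => absurd h hb⟩
      choose φ hφ using h3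
      obtain ⟨M, hM⟩ := ((hℱ1 n).1.image φ).bddAbove
      exact ⟨M, fun b hb => ⟨φ b, hM ⟨b, hb, rfl⟩, hφ b hb⟩⟩
    choose g hgM using h2
    refine ⟨g, fun f hf => ?_⟩
    refine hℱ2.2.mono fun q hq => ?_
    simp only [mem_iUnion] at hq
    obtain ⟨b, ⟨n, hb⟩, hqb⟩ := hq
    obtain ⟨m, hm, hbG⟩ := hgM n b hb
    obtain ⟨j, _, hj⟩ := G_path n r m f q (hbG hqb) (hm.trans (hf n))
    exact ⟨j, hj⟩
  choose g hg' using h1
  obtain ⟨f, hf⟩ := exists_hist fun h : List ℕ =>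
    (h.tails.toFinset).sup fun h' => g h' (h.length - h'.length)
  refine ⟨f, fun N => ?_⟩
  have h2 : ∀ n, g (hist f N) n ≤ f (N + n) := by
    intro n
    rw [hf (N + n)]
    have h3 : hist f N ∈ (hist f (N + n)).tails.toFinset := by
      rw [List.mem_toFinset, List.mem_tails]
      exact hist_suffix f (Nat.le_add_right N n)
    have h4 := Finset.le_sup (f := fun h' : List ℕ =>
      g h' ((hist f (N + n)).length - h'.length)) h3
    simp only [hist_length, Nat.add_sub_cancel_left] at h4 ⊢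
    exact h4
  refine (hg' (hist f N) (fun n => f (N + n)) h2).mono ?_
  rintro q ⟨j, hj⟩
  refine ⟨N + j, Nat.le_add_right _ _, ?_⟩
  rw [hist_add]
  exact hj

end

end Pool.Agent.Helper63.Sel
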